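import Mathlib

/-!
# An Ascoli `ℵ`-space which is not a `C[𝓜]`-space

For a set `M` of infinite binary sequences let `Y_M` be the set of finite binary strings together with
a point `∞`; the strings are isolated, and a set `U` containing `∞` is a neighbourhood of `∞` if for
every `x` in `M` it contains, for some `n`, all the strings which extend the first `n` terms of `x`.
The space `Sp` is the topological sum of the `Y_M`, over all `M`. It is an `ℵ`-space and Ascoli. If it
were embedded into `C_k(Z, Y)`, the functions `z ↦ d(e(s)(z), e(∞)(z))`, `s` a string, would determine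
`M`; but there are only continuum many families of such functions.
-/

set_option autoImplicit false

namespace Pool.Agent.Results.MP_36ad39_gt.ManyFans

open Filter Topology Set

/-- `𝒩` is a `k`-network: for a compact set `K` in an open set `U` there is a finite subfamily of `𝒩`
whose union contains `K` and is contained in `U`. -/
def KNetwork {X : Type*} [TopologicalSpace X] (𝒩 : Set (Set X)) : Prop :=
  ∀ K U : Set X, IsCompact K → IsOpen U → K ⊆ U → ∃ ℱ ⊆ 𝒩, ℱ.Finite ∧ K ⊆ ⋃₀ ℱ ∧ ⋃₀ ℱ ⊆ U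

/-- `ℵ`-spaces: regular (and `T₁`) spaces with a `σ`-locally finite `k`-network. -/
structure AlephSpace (X : Type*) [TopologicalSpace X] : Prop where
  t3 : T3Space X
  net : ∃ 𝒩 : ℕ → Set (Set X), (∀ n, LocallyFinite fun N : 𝒩 n => (N : Set X)) ∧
    KNetwork (⋃ n, 𝒩 n)

/-- Ascoli spaces: every compact subset of `C_k(X)` is evenly continuous. -/
def Ascoli (X : Type*) [TopologicalSpace X] : Prop :=
  ∀ 𝒦 : Set C(X, ℝ), IsCompact 𝒦 → Continuous fun p : 𝒦 × X => (p.1 : C(X, ℝ)) p.2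

universe w u v

/-- `C[𝓜]`-spaces: spaces which embed into `C_k(Z, Y)` for a separable metrizable space `Z` and a
metrizable space `Y`. -/
def CMSpace (X : Type w) [TopologicalSpace X] : Prop :=
  ∃ (Z : Type u) (_ : TopologicalSpace Z) (Y : Type v) (_ : TopologicalSpace Y) (e : X → C(Z, Y)),
    TopologicalSpace.MetrizableSpace Z ∧ TopologicalSpace.SeparableSpace Z ∧
      TopologicalSpace.MetrizableSpace Y ∧ IsEmbedding e

/-! ### The space -/

/-- the strings which extend the first `n` terms of `x` -/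
def cone (x : ℕ → Bool) (n : ℕ) : Set (List Bool) := {s | ∀ i < n, s[i]? = some (x i)}

theorem cone_mono {x : ℕ → Bool} {m n : ℕ} (h : m ≤ n) : cone x n ⊆ cone x m :=
  fun _ hs i hi => hs i (hi.trans_le h)

/-- the first `n` terms of `x` -/
def ini (x : ℕ → Bool) (n : ℕ) : List Bool := (List.range n).map x

theorem ini_get {x : ℕ → Bool} {n i : ℕ} (h : i < n) : (ini x n)[i]? = some (x i) := by
  simp [ini, h]

theorem ini_get_none {x : ℕ → Bool} {n i : ℕ} (h : n ≤ i) : (ini x n)[i]? = none := by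
  simp [ini, h]

theorem ini_mem {x : ℕ → Bool} {m n : ℕ} (h : m ≤ n) : ini x n ∈ cone x m :=
  fun _ hi => ini_get (hi.trans_le h)

/-- the points: the string `s` of the summand `M` is `⟨M, some s⟩`, its point at infinity is
`⟨M, none⟩` -/
structure Sp where
  /-- the summand -/
  idx : Set (ℕ → Bool)
  /-- the point -/
  val : Option (List Bool)

/-- the string `s` in the summand `M` -/
def pt (M : Set (ℕ → Bool)) (s : List Bool) : Sp := ⟨M, some s⟩

/-- the point at infinity of the summand `M` -/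
def inf (M : Set (ℕ → Bool)) : Sp := ⟨M, none⟩

instance : TopologicalSpace Sp where
  IsOpen U := ∀ M, inf M ∈ U → ∀ x ∈ M, ∃ n, ∀ s ∈ cone x n, pt M s ∈ U
  isOpen_univ := fun _ _ _ _ => ⟨0, fun _ _ => trivial⟩
  isOpen_inter := by
    intro U V hU hV M hM x hx
    obtain ⟨m, hm⟩ := hU M hM.1 x hx
    obtain ⟨n, hn⟩ := hV M hM.2 x hx
    exact ⟨max m n, fun s hs => ⟨hm s (cone_mono (le_max_left _ _) hs),
      hn s (cone_mono (le_max_right _ _) hs)⟩⟩
  isOpen_sUnion := by
    intro 𝒰 h𝒰 M hM x hx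
    obtain ⟨U, hU, hMU⟩ := hM
    obtain ⟨n, hn⟩ := h𝒰 U hU M hMU x hx
    exact ⟨n, fun s hs => ⟨U, hU, hn s hs⟩⟩

theorem isOpen_iff {U : Set Sp} :
    IsOpen U ↔ ∀ M, inf M ∈ U → ∀ x ∈ M, ∃ n, ∀ s ∈ cone x n, pt M s ∈ U := Iff.rfl

theorem sp_cases (p : Sp) : (∃ M, p = inf M) ∨ ∃ M s, p = pt M s := by
  obtain ⟨M, o⟩ := p
  cases o with
  | none => exact Or.inl ⟨M, rfl⟩
  | some s => exact Or.inr ⟨M, s, rfl⟩

theorem pt_ne_inf {M M' : Set (ℕ → Bool)} {s : List Bool} : pt M s ≠ inf M' := by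
  intro h
  have := congrArg Sp.val h
  simp [pt, inf] at this

theorem pt_inj {M M' : Set (ℕ → Bool)} {s s' : List Bool} (h : pt M s = pt M' s') :
    M = M' ∧ s = s' := by
  have h1 := congrArg Sp.idx h
  have h2 := congrArg Sp.val h
  simp only [pt] at h1 h2
  exact ⟨h1, Option.some_injective _ h2⟩

theorem inf_inj {M M' : Set (ℕ → Bool)} (h : inf M = inf M') : M = M' := congrArg Sp.idx h

/-- the summand -/
def fib (M : Set (ℕ → Bool)) : Set Sp := {p | p.idx = M}

theorem isOpen_fib (M : Set (ℕ → Bool)) : IsOpen (fib M) := by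
  rw [isOpen_iff]
  intro M' hM' x _
  exact ⟨0, fun s _ => hM'⟩

theorem isClosed_fib (M : Set (ℕ → Bool)) : IsClosed (fib M) := by
  rw [← isOpen_compl_iff, isOpen_iff]
  intro M' hM' x _
  exact ⟨0, fun s _ => hM'⟩

theorem isOpen_pt (M : Set (ℕ → Bool)) (s : List Bool) : IsOpen ({pt M s} : Set Sp) := by
  rw [isOpen_iff]
  intro M' hM'
  exact absurd (mem_singleton_iff.1 hM') (fun h => pt_ne_inf h.symm)

/-- the complement of a set of strings which misses, for each `x` in `M`, one of the cones of `x` -/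
theorem isOpen_miss {M : Set (ℕ → Bool)} {A : Set (List Bool)}
    (h : ∀ x ∈ M, ∃ n, ∀ s ∈ cone x n, s ∉ A) : IsOpen {p : Sp | ∀ s ∈ A, p ≠ pt M s} := by
  rw [isOpen_iff]
  intro M' _ x hx
  by_cases hM : M' = M
  · subst hM
    obtain ⟨n, hn⟩ := h x hx
    refine ⟨n, fun s hs t ht he => ?_⟩
    rw [(pt_inj he).2] at hs
    exact hn t hs ht
  · exact ⟨0, fun s _ t _ he => hM (pt_inj he).1⟩

theorem long {x : ℕ → Bool} {n : ℕ} {s : List Bool} (hs : s ∈ cone x n) : n ≤ s.length := by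
  by_contra hlt
  push Not at hlt
  have := hs s.length hlt
  simp at this

theorem t1 : T1Space Sp := by
  refine ⟨fun p => ?_⟩
  rw [← isOpen_compl_iff]
  rcases sp_cases p with ⟨M, rfl⟩ | ⟨M, s, rfl⟩
  · rw [isOpen_iff]
    intro M' hM' x _
    exact ⟨0, fun s _ h => pt_ne_inf (mem_singleton_iff.1 h)⟩
  · have : ({pt M s} : Set Sp)ᶜ = {p : Sp | ∀ t ∈ ({s} : Set (List Bool)), p ≠ pt M t} := by
      ext p
      simp
    rw [this]
    refine isOpen_miss fun x _ => ⟨s.length + 1, fun t ht h => ?_⟩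
    rw [mem_singleton_iff.1 h] at ht
    have := long ht
    omega

theorem t3 : T3Space Sp := by
  have := t1
  have : RegularSpace Sp := by
    refine RegularSpace.of_exists_mem_nhds_isClosed_subset fun p S hS => ?_
    rcases sp_cases p with ⟨M, rfl⟩ | ⟨M, s, rfl⟩
    · obtain ⟨U, hUS, hU, hp⟩ := mem_nhds_iff.1 hS
      refine ⟨U ∩ fib M, (hU.inter (isOpen_fib M)).mem_nhds ⟨hp, rfl⟩, ?_,
        inter_subset_left.trans hUS⟩
      rw [← isOpen_compl_iff, isOpen_iff]
      intro M' hM' x _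
      by_cases h : M' = M
      · subst h
        exact absurd ⟨hp, rfl⟩ hM'
      · exact ⟨0, fun s _ hs => h hs.2⟩
    · exact ⟨{pt M s}, (isOpen_pt M s).mem_nhds rfl, isClosed_singleton,
        singleton_subset_iff.2 (mem_of_mem_nhds hS)⟩
  exact ⟨⟩

/-! ### The `k`-network -/

/-- the members of the `k`-network in the summand `M` -/
def mb (M : Set (ℕ → Bool)) : Option (List Bool) ⊕ List Bool → Set Sp
  | Sum.inl o => {⟨M, o⟩}
  | Sum.inr t => {p | ∃ s, t <+: s ∧ p = pt M s}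

theorem mb_sub (M : Set (ℕ → Bool)) (c : Option (List Bool) ⊕ List Bool) : mb M c ⊆ fib M := by
  rintro p hp
  cases c with
  | inl o =>
    rw [mb, mem_singleton_iff] at hp
    rw [hp]
    rfl
  | inr t =>
    obtain ⟨s, _, rfl⟩ := hp
    rfl

theorem locFin (c : Option (List Bool) ⊕ List Bool) :
    LocallyFinite fun N : range (fun M => mb M c) => (N : Set Sp) := by
  intro p
  refine ⟨fib p.idx, (isOpen_fib p.idx).mem_nhds rfl, ?_⟩
  refine (finite_singleton (⟨mb p.idx c, p.idx, rfl⟩ : range (fun M => mb M c))).subset ?_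
  rintro ⟨N, hN⟩ ⟨q, hq1, hq2⟩
  obtain ⟨M, rfl⟩ := hN
  have h1 : q.idx = M := mb_sub M c hq1
  have h2 : q.idx = p.idx := hq2
  rw [mem_singleton_iff]
  apply Subtype.ext
  simp only
  rw [← h1, h2]

/-- The compact subsets of a summand: finitely many cones contained in `U` and finitely many points
cover the strings of a compact set `K ⊆ U`. -/
theorem compact_cover {K U : Set Sp} (hK : IsCompact K) (hU : IsOpen U) (hKU : K ⊆ U)
    (M : Set (ℕ → Bool)) :
    ∃ T : Set (List Bool), T.Finite ∧ (∀ t ∈ T, ∀ s, t <+: s → pt M s ∈ U) ∧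
      {s | pt M s ∈ K ∧ ∀ t ∈ T, ¬ t <+: s}.Finite := by
  by_contra hcon
  push Not at hcon
  -- the strings whose cone is contained in `U`
  let TU : Set (List Bool) := {t | ∀ s, t <+: s → pt M s ∈ U}
  obtain ⟨g, hg⟩ : ∃ g : ℕ → Option (List Bool), range g = univ :=
    ⟨fun n => (Encodable.decode n : Option (Option (List Bool))).join, by
      rw [range_eq_univ]
      intro o
      exact ⟨Encodable.encode o, by simp⟩⟩
  let T : ℕ → Set (List Bool) := fun n => {t | t ∈ TU ∧ ∃ m ≤ n, g m = some t}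
  have hTfin : ∀ n, (T n).Finite := by
    intro n
    have : (some '' (T n)) ⊆ g '' (Iic n) := by
      rintro _ ⟨t, ⟨_, m, hm, hgm⟩, rfl⟩
      exact ⟨m, hm, hgm⟩
    exact ((finite_Iic n).image g |>.subset this).of_finite_image (Option.some_injective _).injOn
  have hinf : ∀ n, {s | pt M s ∈ K ∧ ∀ t ∈ T n, ¬ t <+: s}.Infinite := fun n =>
    hcon (T n) (hTfin n) fun t ht => ht.1
  -- an injective sequence
  obtain ⟨f, hf, hr⟩ := exists_seq_of_forall_finset_exists
    (fun a : ℕ × List Bool => pt M a.2 ∈ K ∧ ∀ t ∈ T a.1, ¬ t <+: a.2)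
    (fun a b => a.1 < b.1 ∧ a.2 ≠ b.2) (by
      intro F _
      obtain ⟨s, hs, hsF⟩ := (hinf (F.sup Prod.fst + 1)).exists_notMem_finset (F.image Prod.snd)
      refine ⟨(F.sup Prod.fst + 1, s), hs, fun a ha => ⟨?_, fun h => hsF ?_⟩⟩
      · exact Nat.lt_succ_of_le (Finset.le_sup (f := Prod.fst) ha)
      · have h' : a.2 = s := h
        rw [← h']
        exact Finset.mem_image_of_mem _ ha)
  have hge : ∀ k, k ≤ (f k).1 := by
    intro k
    induction k with
    | zero => exact Nat.zero_le _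
    | succ k ih => exact Nat.succ_le_of_lt (ih.trans_lt (hr k (k + 1) (Nat.lt_succ_self k)).1)
  have hav : ∀ k, ∀ t ∈ T k, ¬ t <+: (f k).2 := by
    intro k t ht
    obtain ⟨ht1, m, hm, hgm⟩ := ht
    exact (hf k).2 t ⟨ht1, m, hm.trans (hge k), hgm⟩
  -- the cover
  let V : ℕ → Set Sp := fun n => {p | p ∈ U ∧ ∀ m, n ≤ m → p ≠ pt M (f m).2}
  have hVo : ∀ n, IsOpen (V n) := by
    intro n
    rw [isOpen_iff]
    intro M' hM' x hx
    obtain ⟨n₀, hn₀⟩ := isOpen_iff.1 hU M' hM'.1 x hx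
    by_cases hMM : M' = M
    · subst hMM
      have hpre : ∀ s, ini x n₀ <+: s → s ∈ cone x n₀ := by
        rintro s ⟨r, rfl⟩ i hi
        rw [List.getElem?_append_left (by simpa [ini] using hi)]
        exact ini_get hi
      have hpre' : ∀ s ∈ cone x n₀, ini x n₀ <+: s := by
        intro s hs
        rw [List.prefix_iff_eq_take]
        apply List.ext_getElem?
        intro i
        by_cases hi : i < n₀
        · rw [ini_get hi, List.getElem?_take, if_pos (by simpa [ini] using hi), hs i hi]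
        · push Not at hi
          rw [ini_get_none hi, List.getElem?_take, if_neg (by simpa [ini] using hi)]
      have hTU : ini x n₀ ∈ TU := fun s hs => hn₀ s (hpre s hs)
      obtain ⟨m₀, hm₀⟩ : ini x n₀ ∈ {t | some t ∈ range g} := by
        rw [hg]
        trivial
      obtain ⟨L, hL⟩ : ∃ L : ℕ, ∀ m < m₀, (f m).2.length < L :=
        ⟨(Finset.range m₀).sup (fun m => (f m).2.length) + 1, fun m hm =>
          Nat.lt_succ_of_le (Finset.le_sup (f := fun m => (f m).2.length)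
            (Finset.mem_range.2 hm))⟩
      refine ⟨max n₀ L, fun s hs => ⟨hn₀ s (cone_mono (le_max_left _ _) hs), fun m hm he => ?_⟩⟩
      have he2 := (pt_inj he).2
      have h3 : m < m₀ := by
        by_contra hlt
        push Not at hlt
        refine hav m (ini x n₀) ⟨hTU, m₀, hlt, hm₀⟩ ?_
        rw [← he2]
        exact hpre' s (cone_mono (le_max_left _ _) hs)
      have h4 := long (cone_mono (le_max_right _ _) hs)
      have h5 := hL m h3
      rw [← he2] at h5
      omega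
    · exact ⟨n₀, fun s hs => ⟨hn₀ s hs, fun m _ he => hMM (pt_inj he).1⟩⟩
  have hVm : Monotone V := fun a b hab p hp => ⟨hp.1, fun m hm => hp.2 m (hab.trans hm)⟩
  obtain ⟨n, hn⟩ := hK.elim_directed_cover V hVo (by
    intro p hp
    rw [mem_iUnion]
    by_cases h : ∃ m, p = pt M (f m).2
    · obtain ⟨m, rfl⟩ := h
      refine ⟨m + 1, hKU hp, fun m' hm' he => ?_⟩
      exact (hr m m' (by omega)).2 (pt_inj he).2
    · push Not at h
      exact ⟨0, hKU hp, fun m _ => h m⟩) hVm.directed_le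
  exact (hn (hf n).1).2 n le_rfl rfl

theorem net : ∃ 𝒩 : ℕ → Set (Set Sp), (∀ n, LocallyFinite fun N : 𝒩 n => (N : Set Sp)) ∧
    KNetwork (⋃ n, 𝒩 n) := by
  obtain ⟨g, hg⟩ : ∃ g : ℕ → Option (List Bool) ⊕ List Bool, Function.Surjective g :=
    exists_surjective_nat _
  refine ⟨fun n => range fun M => mb M (g n), fun n => locFin _, ?_⟩
  intro K U hK hU hKU
  -- finitely many summands
  obtain ⟨E, hE⟩ := hK.elim_finite_subcover fib isOpen_fib fun p _ => mem_iUnion.2 ⟨p.idx, rfl⟩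
  choose T hT1 hT2 hT3 using fun M => compact_cover hK hU hKU M
  refine ⟨{N | ∃ M ∈ E, (inf M ∈ K ∧ N = mb M (Sum.inl none)) ∨
    (∃ t ∈ T M, N = mb M (Sum.inr t)) ∨
    ∃ s ∈ {s | pt M s ∈ K ∧ ∀ t ∈ T M, ¬ t <+: s}, N = mb M (Sum.inl (some s))}, ?_, ?_, ?_, ?_⟩
  · rintro N ⟨M, _, h⟩
    have key : ∀ c, mb M c ∈ ⋃ n, range fun M => mb M (g n) := by
      intro c
      obtain ⟨n, hn⟩ := hg c
      exact mem_iUnion.2 ⟨n, M, by simp only [hn]⟩
    rcases h with ⟨_, rfl⟩ | ⟨t, _, rfl⟩ | ⟨s, _, rfl⟩ <;> exact key _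
  · have : {N | ∃ M ∈ E, (inf M ∈ K ∧ N = mb M (Sum.inl none)) ∨
        (∃ t ∈ T M, N = mb M (Sum.inr t)) ∨
        ∃ s ∈ {s | pt M s ∈ K ∧ ∀ t ∈ T M, ¬ t <+: s}, N = mb M (Sum.inl (some s))} ⊆
        ⋃ M ∈ E, ({mb M (Sum.inl none)} ∪ (fun t => mb M (Sum.inr t)) '' (T M) ∪
          (fun s => mb M (Sum.inl (some s))) '' {s | pt M s ∈ K ∧ ∀ t ∈ T M, ¬ t <+: s}) := by
      rintro N ⟨M, hM, h⟩
      refine mem_iUnion₂.2 ⟨M, hM, ?_⟩
      rcases h with ⟨_, rfl⟩ | ⟨t, ht, rfl⟩ | ⟨s, hs, rfl⟩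
      · exact Or.inl (Or.inl rfl)
      · exact Or.inl (Or.inr ⟨t, ht, rfl⟩)
      · exact Or.inr ⟨s, hs, rfl⟩
    refine Finite.subset ?_ this
    refine E.finite_toSet.biUnion fun M _ => ?_
    exact ((finite_singleton _).union ((hT1 M).image _)).union ((hT3 M).image _)
  · intro p hp
    obtain ⟨M, hME, hpM⟩ := mem_iUnion₂.1 (hE hp)
    rcases sp_cases p with ⟨M', rfl⟩ | ⟨M', s, rfl⟩
    · have : M' = M := hpM
      subst this
      exact ⟨_, ⟨M', hME, Or.inl ⟨hp, rfl⟩⟩, rfl⟩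
    · have : M' = M := hpM
      subst this
      by_cases h : ∀ t ∈ T M', ¬ t <+: s
      · exact ⟨_, ⟨M', hME, Or.inr (Or.inr ⟨s, ⟨hp, h⟩, rfl⟩)⟩, rfl⟩
      · push Not at h
        obtain ⟨t, ht, hts⟩ := h
        exact ⟨_, ⟨M', hME, Or.inr (Or.inl ⟨t, ht, rfl⟩)⟩, s, hts, rfl⟩
  · rintro p ⟨N, ⟨M, _, h⟩, hpN⟩
    rcases h with ⟨hK1, rfl⟩ | ⟨t, ht, rfl⟩ | ⟨s, hs, rfl⟩
    · have : p = inf M := hpN
      rw [this]
      exact hKU hK1
    · obtain ⟨s, hts, rfl⟩ := hpN
      exact hT2 M t ht s hts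
    · have : p = pt M s := hpN
      rw [this]
      exact hKU hs.1

/-! ### The Ascoli property -/

theorem tendsto_seq {M : Set (ℕ → Bool)} {x : ℕ → Bool} (hx : x ∈ M) {a : ℕ → List Bool}
    (ha : ∀ n, a n ∈ cone x n) : Tendsto (fun n => pt M (a n)) atTop (𝓝 (inf M)) := by
  rw [tendsto_nhds]
  intro U hU hM
  obtain ⟨n₀, hn₀⟩ := isOpen_iff.1 hU M hM x hx
  exact mem_atTop_sets.2 ⟨n₀, fun n hn => hn₀ _ (cone_mono hn (ha n))⟩

/-- compact sets of functions are equicontinuous -/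
theorem equi {𝒦 : Set C(Sp, ℝ)} (h𝒦 : IsCompact 𝒦) (p : Sp) {ε : ℝ} (hε : 0 < ε) :
    ∃ U : Set Sp, IsOpen U ∧ p ∈ U ∧ ∀ f ∈ 𝒦, ∀ q ∈ U, dist (f q) (f p) < ε := by
  rcases sp_cases p with ⟨M, rfl⟩ | ⟨M, s, rfl⟩
  swap
  · refine ⟨{pt M s}, isOpen_pt M s, rfl, fun f _ q hq => ?_⟩
    rw [mem_singleton_iff.1 hq, dist_self]
    exact hε
  let A : Set (List Bool) := {s | ∃ f ∈ 𝒦, ε ≤ dist (f (pt M s)) (f (inf M))}
  by_cases h : ∀ x ∈ M, ∃ n, ∀ s ∈ cone x n, s ∉ A
  · refine ⟨{p : Sp | ∀ s ∈ A, p ≠ pt M s} ∩ fib M, (isOpen_miss h).inter (isOpen_fib M),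
      ⟨fun s _ he => pt_ne_inf he.symm, rfl⟩, ?_⟩
    rintro f hf q ⟨hq1, hq2⟩
    rcases sp_cases q with ⟨M', rfl⟩ | ⟨M', s, rfl⟩
    · have : M' = M := hq2
      rw [this, dist_self]
      exact hε
    · have : M' = M := hq2
      subst this
      by_contra hlt
      push Not at hlt
      exact hq1 s ⟨f, hf, hlt⟩ rfl
  · exfalso
    push Not at h
    obtain ⟨x, hx, h⟩ := h
    choose a ha hA using h
    choose F hF hFε using hA
    have hlim := tendsto_seq hx ha
    have hS : IsCompact (insert (inf M) (range fun n => pt M (a n))) := hlim.isCompact_insert_range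
    set S : Set Sp := insert (inf M) (range fun n => pt M (a n)) with hSdef
    have : CompactSpace S := isCompact_iff_compactSpace.1 hS
    obtain ⟨g, _, hg⟩ := h𝒦.exists_mapClusterPt (f := atTop) (u := F)
      (le_principal_iff.2 (mem_map.2 (Eventually.of_forall (f := atTop) hF)))
    have hW : {k : C(Sp, ℝ) | dist (k.restrict S) (g.restrict S) < ε / 3} ∈ 𝓝 g := by
      have hc : Continuous fun k : C(Sp, ℝ) => k.restrict S := ContinuousMap.continuous_restrict S
      exact hc.continuousAt.preimage_mem_nhds (Metric.ball_mem_nhds _ (by positivity))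
    have hev : ∀ᶠ n in atTop, dist (g (pt M (a n))) (g (inf M)) < ε / 3 :=
      (Metric.tendsto_nhds.1 ((g.continuous.tendsto _).comp hlim)) (ε / 3) (by positivity)
    obtain ⟨n, hn1, hn2⟩ := ((hg.frequently hW).and_eventually hev).exists
    have h1 : ∀ q ∈ S, dist (F n q) (g q) < ε / 3 := fun q hq =>
      (ContinuousMap.dist_apply_le_dist (f := (F n).restrict S) (g := g.restrict S)
        ⟨q, hq⟩).trans_lt hn1
    have h2 := h1 (pt M (a n)) (Or.inr ⟨n, rfl⟩)
    have h3 := h1 (inf M) (Or.inl rfl)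
    have h4 := hFε n
    have h5 := dist_triangle4 (F n (pt M (a n))) (g (pt M (a n))) (g (inf M)) (F n (inf M))
    rw [dist_comm (g (inf M))] at h5
    linarith

theorem ascoli : Ascoli Sp := by
  intro 𝒦 h𝒦
  rw [continuous_iff_continuousAt]
  rintro ⟨f₀, p⟩
  rw [ContinuousAt, Metric.tendsto_nhds]
  intro ε hε
  obtain ⟨U, hU, hpU, hUε⟩ := equi h𝒦 p (half_pos hε)
  have h1 : ∀ᶠ q : 𝒦 × Sp in 𝓝 (f₀, p), q.2 ∈ U :=
    (continuous_snd.tendsto _).eventually (hU.mem_nhds hpU)
  have h2 : ∀ᶠ q : 𝒦 × Sp in 𝓝 (f₀, p), dist ((q.1 : C(Sp, ℝ)) p) ((f₀ : C(Sp, ℝ)) p) < ε / 2 := by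
    have hc : Continuous fun q : 𝒦 × Sp => (q.1 : C(Sp, ℝ)) p :=
      (ContinuousEvalConst.continuous_eval_const p).comp
        (continuous_subtype_val.comp continuous_fst)
    exact (Metric.tendsto_nhds.1 (hc.tendsto (f₀, p))) (ε / 2) (half_pos hε)
  filter_upwards [h1, h2] with q hq1 hq2
  have h3 := hUε q.1 q.1.2 q.2 hq1
  have h4 := dist_triangle ((q.1 : C(Sp, ℝ)) q.2) ((q.1 : C(Sp, ℝ)) p) ((f₀ : C(Sp, ℝ)) p)
  linarith

/-! ### The space is not a `C[𝓜]`-space -/

/-- the summand `M` is determined by its convergent sequences -/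
theorem mem_of_tendsto {M : Set (ℕ → Bool)} {x : ℕ → Bool}
    (h : Tendsto (fun n => pt M (ini x n)) atTop (𝓝 (inf M))) : x ∈ M := by
  by_contra hx
  have hU : IsOpen {p : Sp | ∀ s ∈ range (ini x), p ≠ pt M s} := by
    refine isOpen_miss fun y hy => ?_
    have hne : y ≠ x := fun he => hx (he ▸ hy)
    obtain ⟨i, hi⟩ := Function.ne_iff.1 hne
    refine ⟨i + 1, ?_⟩
    rintro s hs ⟨m, rfl⟩
    have h1 := hs i (Nat.lt_succ_self i)
    by_cases him : i < m
    · rw [ini_get him] at h1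
      exact hi (Option.some_injective _ h1).symm
    · rw [ini_get_none (not_lt.1 him)] at h1
      simp at h1
  have h2 := h.eventually (hU.mem_nhds fun s _ he => pt_ne_inf he.symm)
  obtain ⟨n, hn⟩ := h2.exists
  exact hn (ini x n) ⟨n, rfl⟩ rfl

theorem not_cm : ¬ CMSpace.{0, u, v} Sp := by
  rintro ⟨Z, _, Y, _, e, hZ, hZs, hY, he⟩
  let _ : MetricSpace Y := TopologicalSpace.metrizableSpaceMetric Y
  -- the space is not empty
  rcases isEmpty_or_nonempty Z with hZe | hZn
  · have : e (inf ∅) = e (inf univ) := by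
      ext z
      exact hZe.elim z
    have h2 := inf_inj (he.injective this)
    exact absurd h2 (Set.empty_ne_univ)
  let D : Set (ℕ → Bool) → List Bool → ℕ → ℝ := fun M s k =>
    dist (e (pt M s) (TopologicalSpace.denseSeq Z k)) (e (inf M) (TopologicalSpace.denseSeq Z k))
  have key : ∀ M M' : Set (ℕ → Bool), D M = D M' → M ⊆ M' := by
    intro M M' hD x hx
    have hall : ∀ (s : List Bool) (z : Z),
        dist (e (pt M s) z) (e (inf M) z) = dist (e (pt M' s) z) (e (inf M') z) := by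
      intro s
      have h1 : Continuous fun z => dist (e (pt M s) z) (e (inf M) z) := by fun_prop
      have h2 : Continuous fun z => dist (e (pt M' s) z) (e (inf M') z) := by fun_prop
      have h3 := (TopologicalSpace.denseRange_denseSeq Z).equalizer h1 h2 (by
        funext k
        exact congrFun (congrFun hD s) k)
      exact fun z => congrFun h3 z
    have h1 : Tendsto (fun n => e (pt M (ini x n))) atTop (𝓝 (e (inf M))) :=
      (he.continuous.tendsto _).comp (tendsto_seq hx fun n => ini_mem le_rfl)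
    have h2 : Tendsto (fun n => e (pt M' (ini x n))) atTop (𝓝 (e (inf M'))) := by
      rw [ContinuousMap.tendsto_iff_forall_isCompact_tendstoUniformlyOn] at h1 ⊢
      intro K hK
      have h3 := h1 K hK
      rw [Metric.tendstoUniformlyOn_iff] at h3 ⊢
      intro ε hε
      filter_upwards [h3 ε hε] with n hn z hz
      rw [dist_comm, ← hall, dist_comm]
      exact hn z hz
    exact mem_of_tendsto (he.tendsto_nhds_iff.2 h2)
  have hinj : Function.Injective D := fun M M' h => (key M M' h).antisymm (key M' M h.symm)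
  have h1 := Cardinal.mk_le_of_injective hinj
  have h2 : Cardinal.mk (List Bool → ℕ → ℝ) ≤ Cardinal.mk (ℕ → Bool) := by
    simp [Cardinal.mk_real]
  have h3 := Cardinal.cantor (Cardinal.mk (ℕ → Bool))
  rw [Cardinal.mk_set] at h1
  exact absurd (h3.trans_le (h1.trans h2)) (lt_irrefl _)

/-- **There is an Ascoli `ℵ`-space which is not a `C[𝓜]`-space.** -/
theorem result : ∃ (X : Type) (_ : TopologicalSpace X),
    AlephSpace X ∧ Ascoli X ∧ ¬ CMSpace.{0, u, v} X :=
  ⟨Sp, inferInstance, ⟨t3, net⟩, ascoli, not_cm⟩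

end Pool.Agent.Results.MP_36ad39_gt.ManyFans
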